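import Pool.Agent.Lib_helper60.PQ.Defs

/-!
# Project PQ, block R4: ideals whose square is principal
-/

set_option autoImplicit false

namespace Pool.Agent.PQ

open Finset Pool.Agent.TM32

/-- an invertible ideal of trivial class is principal -/
theorem princ_of_one {R : Type} [CommRing R] [IsDomain R] (K : Ideal R) (hK : TM32.Inv K)
    (h : mkI K hK = 1) : ∃ g : R, K = Ideal.span {g} := by
  have h1 := mkI_span (1 : R) one_ne_zero (inv_span 1 one_ne_zero)
  have h2 : mkI K hK = mkI (Ideal.span {(1 : R)}) (inv_span 1 one_ne_zero) := by rw [h, h1]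
  obtain ⟨x, y, hx, hy, hxy⟩ := (mkI_eq_iff _ _ _ _).1 h2
  have h3 : y ∈ Ideal.span {x} * K := by
    rw [hxy, Ideal.span_singleton_mul_span_singleton, mul_one]
    exact Ideal.mem_span_singleton_self y
  obtain ⟨z, hz, hxz⟩ := Ideal.mem_span_singleton_mul.1 h3
  refine ⟨z, span_mul_cancel x hx _ _ ?_⟩
  rw [hxy, Ideal.span_singleton_mul_span_singleton, Ideal.span_singleton_mul_span_singleton, hxz,
    mul_one]

/-- norm of a generator -/
theorem gen_norm (n : ℕ) [NeZero n] (K : Ideal (Od n)) (g : Od n) (hK : K = Ideal.span {g}) (N : ℤ)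
    (hN : 0 < N) (h1 : N ∣ g.norm) (h2 : (N : Od n) ∈ K)
    (h3 : ∀ t : ℤ, (∀ z ∈ K, t ∣ z.re ∧ t ∣ z.im) → IsUnit t) :
    g.norm = N ∧ IsCoprime g.re g.im := by
  have hdiv : ∀ t : ℤ, t ∣ g.re → t ∣ g.im → IsUnit t := by
    intro t ht1 ht2
    apply h3
    intro z hz
    rw [hK] at hz
    obtain ⟨w, rfl⟩ := Ideal.mem_span_singleton'.1 hz
    rw [Zsqrtd.re_mul, Zsqrtd.im_mul]
    refine ⟨dvd_add (Dvd.dvd.mul_left ht1 _) (Dvd.dvd.mul_left ht2 _),
      dvd_add (Dvd.dvd.mul_left ht2 _) (Dvd.dvd.mul_left ht1 _)⟩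
  constructor
  · obtain ⟨t, ht⟩ := h1
    rw [hK] at h2
    obtain ⟨s, hs⟩ := Ideal.mem_span_singleton'.1 h2
    have hg : g ≠ 0 := by
      rintro rfl
      rw [mul_zero] at hs
      have : (0 : Od n).re = ((N : ℤ) : Od n).re := by rw [hs]
      simp at this
      omega
    have h4 : g * star g = g * (s * (t : Od n)) := by
      rw [← Zsqrtd.norm_eq_mul_conj, ht]
      push_cast
      rw [← hs]; ring
    have h5 : star g = s * (t : Od n) := mul_left_cancel₀ hg h4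
    have h6 : t ∣ g.re := by
      have : (star g).re = s.re * t := by rw [h5]; simp [Zsqrtd.re_mul]
      rw [Zsqrtd.re_star] at this
      exact ⟨s.re, by rw [this]; ring⟩
    have h7 : t ∣ g.im := by
      have : (star g).im = s.im * t := by rw [h5]; simp [Zsqrtd.im_mul]
      rw [Zsqrtd.im_star] at this
      exact ⟨-s.im, by linear_combination -this⟩
    have h8 := hdiv t h6 h7
    have h9 : 0 < g.norm := od_norm_pos n (Nat.pos_of_ne_zero (NeZero.ne n)) g hg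
    rcases Int.isUnit_iff.1 h8 with h | h
    · rw [ht, h, mul_one]
    · rw [ht, h] at h9; linarith
  · rw [Int.isCoprime_iff_gcd_eq_one]
    have := hdiv (Int.gcd g.re g.im) (Int.gcd_dvd_left ..) (Int.gcd_dvd_right ..)
    exact Int.ofNat_isUnit.1 this |> Nat.isUnit_iff.1

/-- `m` is prime to `r` -/
theorem m_cop (n m : ℕ) (r : ℤ) (hc : Nat.Coprime m (2 * n)) (hr : (m : ℤ) ∣ r ^ 2 + n) :
    IsCoprime (m : ℤ) r := by
  have h1 : IsCoprime (m : ℤ) (n : ℤ) :=
    Nat.isCoprime_iff_coprime.2 (Nat.Coprime.coprime_mul_left_right hc)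
  obtain ⟨u, hu⟩ := hr
  have h2 : IsCoprime (m : ℤ) (r ^ 2) := by
    obtain ⟨a, b, hab⟩ := h1
    exact ⟨a + b * u, -b, by linear_combination hab - b * hu⟩
  exact (IsCoprime.pow_right_iff (by norm_num)).1 h2

/-- Hensel lift -/
theorem hensel (n m : ℕ) (r : ℤ) (hc : Nat.Coprime m (2 * n)) (hr : (m : ℤ) ∣ r ^ 2 + n) :
    ∃ r' : ℤ, (m : ℤ) ∣ r' - r ∧ (m : ℤ) ^ 2 ∣ r' ^ 2 + n := by
  have h1 := m_cop n m r hc hr
  have h2 : IsCoprime (m : ℤ) 2 := by
    have := Nat.isCoprime_iff_coprime.2 (Nat.Coprime.coprime_mul_right_right hc)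
    exact_mod_cast this
  obtain ⟨a, b, hab⟩ := h2.mul_right h1
  obtain ⟨u, hu⟩ := hr
  -- `b * (2 r) ≡ 1 mod m`
  refine ⟨r - m * (b * u), ⟨-(b * u), by ring⟩, ⟨a * u + (b * u) ^ 2, ?_⟩⟩
  linear_combination hu - (m : ℤ) * u * hab

/-- the ideal and its lift -/
theorem sq_sub (n m : ℕ) (r r' : ℤ) (hr : (m : ℤ) ∣ r' - r) (hr' : (m : ℤ) ^ 2 ∣ r' ^ 2 + n)
    (I : Ideal (Od n)) (hI : ∀ z : Od n, z ∈ I ↔ (m : ℤ) ∣ z.re + r * z.im) (z : Od n) (hz : z ∈ I * I) :
    (m : ℤ) ^ 2 ∣ z.re + r' * z.im := by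
  refine Submodule.mul_induction_on hz ?_ ?_
  · intro a ha b hb
    rw [hI] at ha hb
    have ha' : (m : ℤ) ∣ a.re + r' * a.im := by
      have : a.re + r' * a.im = (a.re + r * a.im) + (r' - r) * a.im := by ring
      rw [this]; exact dvd_add ha (Dvd.dvd.mul_right hr _)
    have hb' : (m : ℤ) ∣ b.re + r' * b.im := by
      have : b.re + r' * b.im = (b.re + r * b.im) + (r' - r) * b.im := by ring
      rw [this]; exact dvd_add hb (Dvd.dvd.mul_right hr _)
    have h1 : (m : ℤ) ^ 2 ∣ (a.re + r' * a.im) * (b.re + r' * b.im) := by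
      rw [pow_two]; exact mul_dvd_mul ha' hb'
    have h2 : (a * b).re + r' * (a * b).im =
        (a.re + r' * a.im) * (b.re + r' * b.im) - (r' ^ 2 + n) * (a.im * b.im) := by
      rw [Zsqrtd.re_mul, Zsqrtd.im_mul]; ring
    rw [h2]
    exact dvd_sub h1 (Dvd.dvd.mul_right hr' _)
  · intro a b ha hb
    rw [Zsqrtd.re_add, Zsqrtd.im_add]
    have : a.re + b.re + r' * (a.im + b.im) = (a.re + r' * a.im) + (b.re + r' * b.im) := by ring
    rw [this]; exact dvd_add ha hb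

/-- divisibility of the norm -/
theorem dvd_norm (n : ℕ) (M r : ℤ) (hr : M ∣ r ^ 2 + n) (z : Od n) (hz : M ∣ z.re + r * z.im) :
    M ∣ z.norm := by
  rw [od_norm]
  have : z.re ^ 2 + n * z.im ^ 2 = (z.re + r * z.im) * (z.re - r * z.im) + (r ^ 2 + n) * z.im ^ 2 := by
    ring
  rw [this]
  exact dvd_add (Dvd.dvd.mul_right hz _) (Dvd.dvd.mul_right hr _)

/-- R4 : if `C² = 1` then `I² = (x + y √-n)` with `x, y` coprime, `m² = x² + n y²`, and the generator lies in `I²` -/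
theorem rp_sq_one (n : ℕ) [NeZero n] (C : ClassGroup (Od n)) (m : ℕ) (r : ℤ) (h : Rp n C m r) (hC : C ^ 2 = 1) :
    ∃ x y : ℤ, IsCoprime x y ∧ (m : ℤ) ^ 2 = x ^ 2 + n * y ^ 2 ∧
      ∃ r' : ℤ, (m : ℤ) ∣ r' - r ∧ (m : ℤ) ^ 2 ∣ r' ^ 2 + n ∧ (m : ℤ) ^ 2 ∣ x + r' * y := by
  obtain ⟨hm, hc, hr, I, hI, hz, hIC⟩ := h
  obtain ⟨r', hr1, hr2⟩ := hensel n m r hc hr
  have h1 : mkI (I * I) (hI.mul hI) = 1 := by
    rw [mkI_mul I I hI hI (hI.mul hI), hIC, ← pow_two, hC]
  obtain ⟨g, hg⟩ := princ_of_one _ _ h1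
  have hgI : g ∈ I * I := by rw [hg]; exact Ideal.mem_span_singleton_self g
  have h2 := sq_sub n m r r' hr1 hr2 I hz g hgI
  have hcr := m_cop n m r hc hr
  have hc2 : IsCoprime (m : ℤ) 2 := by
    have := Nat.isCoprime_iff_coprime.2 (Nat.Coprime.coprime_mul_right_right hc)
    exact_mod_cast this
  have hm' : (m : Od n) ∈ I := by rw [hz]; simp
  have hw : (⟨-r, 1⟩ : Od n) ∈ I := by rw [hz]; simp
  obtain ⟨h3, h4⟩ := gen_norm n (I * I) g hg ((m : ℤ) ^ 2) (by positivity) (dvd_norm n _ r' hr2 g h2)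
    (by
      have := Ideal.mul_mem_mul hm' hm'
      convert this using 1
      push_cast; ring)
    (by
      intro t ht
      have e1 := ht _ (Ideal.mul_mem_mul hm' hm')
      have e2 := ht _ (Ideal.mul_mem_mul hw hw)
      simp only [Zsqrtd.re_mul, Zsqrtd.im_mul, Zsqrtd.re_natCast, Zsqrtd.im_natCast] at e1 e2
      have f1 : t ∣ (m : ℤ) ^ 2 := by
        have := e1.1
        simpa [pow_two] using this
      have f2 : t ∣ 2 * r := by
        have := e2.2
        have h : (-r) * 1 + 1 * (-r) = -(2 * r) := by ring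
        rw [h] at this
        exact (Int.dvd_neg).1 this
      exact ((hc2.mul_right hcr).pow_left (m := 2)).isUnit_of_dvd' f1 f2)
  refine ⟨g.re, g.im, h4, ?_, r', hr1, hr2, h2⟩
  rw [← h3, od_norm]

end Pool.Agent.PQ
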